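import Pool.Agent.Helper732.HP.Final
import Pool.Agent.Helper732.HN.ForceCH

set_option autoImplicit false

open Set Topology

namespace Pool.Agent.Results.MP_ba58b9_gt.ConsistentExample

open Pool.Agent.Helper732.HP (Diamond LocallyEuclidean CountablyParacompact)

/-!
A hereditarily countably paracompact 3-manifold which is not normal, from diamond, together with a
forcing notion which forces diamond over any ground model.

The manifold is the union of an increasing chain of open 3-manifolds `M α`, `α < ω₁`, where `M 0` is
the 3-space and `M (α+1)` is obtained from `M α` by attaching a closed ray of one of three types
`0, 1, 2` to a tube which goes to infinity.  The type `0` is below the incomparable types `1` and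
`2`.  Each unbounded set of points of type `m` accumulates at all points of the types above `m`,
from some stage on.  So the closed sets of the points of type `1` and of type `2` cannot be
separated, while the finiteness of the set of types gives hereditary countable paracompactness.
-/

/-- **Main theorem.**  (A) Some notion of forcing `P` of type `Type` forces, below every condition,
that `ω₁` is preserved and that diamond holds (a theorem on the explicit forcing relation).
(B) Diamond implies that there is a Hausdorff space `M` in which every point has an open
neighbourhood homeomorphic to the Euclidean 3-space, such that every subspace of `M` is countably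
paracompact and `M` is not normal. -/
theorem result :
    (∃ (P : Type) (_ : Preorder P), Nonempty P ∧ ∀ p : P,
      p ∈ Pool.Agent.Helper732.HN.ForceCH.OmegaOnePreserved P ∧
      p ∈ Pool.Agent.Helper732.HN.ForceCH.DiamondHolds P) ∧
    (Diamond → ∃ (M : Type) (_ : TopologicalSpace M), T2Space M ∧ LocallyEuclidean 3 M ∧
      (∀ Y : Set M, CountablyParacompact Y) ∧ ¬ NormalSpace M) := by
  refine ⟨?_, Pool.Agent.Helper732.HP.main⟩
  obtain ⟨P, hP, hne, h⟩ := Pool.Agent.Helper732.HN.ForceCH.exists_forcing
  exact ⟨P, hP, hne, fun p => ⟨(h p).1, (h p).2.1⟩⟩

end Pool.Agent.Results.MP_ba58b9_gt.ConsistentExample
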