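import Mathlib
import Pool.Agent.Helper761.QDev6

set_option autoImplicit false

namespace Pool.Agent.Results.MP_ba58b9_gt.QuasiDevelopable

open Set Topology TopologicalSpace

/-- Every quasi-developable, hereditarily countably paracompact manifold is metrizable and
hereditarily normal. -/
theorem result :
    ∀ (X : Type) [TopologicalSpace X] [T2Space X] (n : ℕ)
      [ChartedSpace (EuclideanSpace ℝ (Fin n)) X],
      (∀ s : Set X,
        ∀ U : ℕ → Set s, (∀ n, IsOpen (U n)) → (⋃ n, U n) = Set.univ →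
        ∃ V : ℕ → Set s, (∀ n, IsOpen (V n)) ∧ (∀ n, V n ⊆ U n) ∧
          (⋃ n, V n) = Set.univ ∧ LocallyFinite V) →
      (∃ G : ℕ → Set (Set X),
        (∀ k, ∀ s ∈ G k, IsOpen s) ∧
        ∀ x : X, ∀ U : Set X, IsOpen U → x ∈ U →
          ∃ k, x ∈ ⋃₀ {s ∈ G k | x ∈ s} ∧ ⋃₀ {s ∈ G k | x ∈ s} ⊆ U) →
      TopologicalSpace.MetrizableSpace X ∧ ∀ s : Set X, NormalSpace s := by
  rintro X _ _ n _ hcp ⟨G, hG⟩
  haveI : LocallyCompactSpace X := ChartedSpace.locallyCompactSpace (EuclideanSpace ℝ (Fin n)) X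
  haveI : LocallyConnectedSpace X :=
    ChartedSpace.locallyConnectedSpace (EuclideanSpace ℝ (Fin n)) X
  have hM : TopologicalSpace.MetrizableSpace X := by
    refine Pool.Agent.Helper761.QD.main_cp ?_ (fun s _ => hcp s) G hG
    intro x
    refine ⟨(chartAt (EuclideanSpace ℝ (Fin n)) x).source, (chartAt _ x).open_source,
      mem_chart_source _ x, ?_⟩
    exact (chartAt (EuclideanSpace ℝ (Fin n)) x).secondCountableTopology_source
  refine ⟨hM, fun s => ?_⟩
  letI := TopologicalSpace.metrizableSpaceMetric s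
  infer_instance

end Pool.Agent.Results.MP_ba58b9_gt.QuasiDevelopable
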